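import Mathlib

/-!
# MP_8e9e7d_al, Q1: the statement `ρ(Γ) ∈ {5,6}` is false

The numerical semigroup `Γ = ⟨6,7,8,9⟩` has embedding dimension four, is nearly Gorenstein,
is not almost symmetric, and its defining ideal is minimally generated by exactly four elements,
over every field.
-/

open MvPolynomial

namespace Pool.Agent.Results.MP_8e9e7d_al.SixSevenEightNine

universe u

/-- `Γ ⊆ ℕ` is a numerical semigroup: an additive submonoid with finite complement. -/
def IsNumericalSemigroup (Γ : AddSubmonoid ℕ) : Prop := ((Γ : Set ℕ)ᶜ).Finite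

/-- The minimal generating set of `Γ`: the nonzero elements of `Γ` that are not a sum of two
nonzero elements of `Γ`. -/
def minGens (Γ : AddSubmonoid ℕ) : Set ℕ :=
  {g | g ∈ Γ ∧ g ≠ 0 ∧ ∀ a ∈ Γ, ∀ b ∈ Γ, a + b = g → a = 0 ∨ b = 0}

/-- The embedding dimension: the number of minimal generators. -/
noncomputable def edim (Γ : AddSubmonoid ℕ) : ℕ := (minGens Γ).ncard

/-- Membership of an integer in `Γ`. -/
def Mem (Γ : AddSubmonoid ℕ) (x : ℤ) : Prop := ∃ n ∈ Γ, (n : ℤ) = x

/-- The pseudo-Frobenius numbers of `Γ`: integers `x ∉ Γ` with `x + s ∈ Γ` for all nonzero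
`s ∈ Γ`. -/
def IsPF (Γ : AddSubmonoid ℕ) (x : ℤ) : Prop :=
  ¬ Mem Γ x ∧ ∀ s ∈ Γ, s ≠ 0 → Mem Γ (x + s)

/-- `F` is the Frobenius number of `Γ`: the largest integer not in `Γ`. -/
def IsFrob (Γ : AddSubmonoid ℕ) (F : ℤ) : Prop :=
  ¬ Mem Γ F ∧ ∀ x : ℤ, F < x → Mem Γ x

/-- `Γ` is almost symmetric: for each integer `x ∉ Γ`, either `F - x ∈ Γ`, or `x` and `F - x` are
both pseudo-Frobenius numbers (`F` the Frobenius number). -/
def AlmostSymmetric (Γ : AddSubmonoid ℕ) : Prop :=
  ∀ F : ℤ, IsFrob Γ F → ∀ x : ℤ, ¬ Mem Γ x → Mem Γ (F - x) ∨ (IsPF Γ x ∧ IsPF Γ (F - x))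

/-- `Γ` is nearly Gorenstein: for each minimal generator `g` there is a pseudo-Frobenius number
`p` with `g + p - q ∈ Γ` for every pseudo-Frobenius number `q`. -/
def NearlyGorenstein (Γ : AddSubmonoid ℕ) : Prop :=
  ∀ g ∈ minGens Γ, ∃ p : ℤ, IsPF Γ p ∧ ∀ q : ℤ, IsPF Γ q → Mem Γ ((g : ℤ) + p - q)

/-- The map `k[x_g : g a minimal generator] → k[t]`, `x_g ↦ t^g`. -/
noncomputable def phi (k : Type u) [Field k] (Γ : AddSubmonoid ℕ) :
    MvPolynomial (minGens Γ) k →ₐ[k] Polynomial k :=
  aeval (fun g => (Polynomial.X : Polynomial k) ^ (g : ℕ))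

/-- The defining ideal `I_Γ`: the kernel of `phi`. -/
noncomputable def toricIdeal (k : Type u) [Field k] (Γ : AddSubmonoid ℕ) :
    Ideal (MvPolynomial (minGens Γ) k) := RingHom.ker (phi k Γ)

/-- The minimal number of generators of the ideal `I_Γ`. -/
noncomputable def rho (k : Type u) [Field k] (Γ : AddSubmonoid ℕ) : ℕ :=
  sInf {n | ∃ s : Finset (MvPolynomial (minGens Γ) k),
    s.card = n ∧ Ideal.span (s : Set (MvPolynomial (minGens Γ) k)) = toricIdeal k Γ}

/-! ## The semigroup `⟨6,7,8,9⟩` -/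

/-- `⟨6,7,8,9⟩`. -/
def G : AddSubmonoid ℕ := AddSubmonoid.closure {6, 7, 8, 9}

lemma mem_G (x : ℕ) : x ∈ G ↔ x = 0 ∨ (6 ≤ x ∧ x ≤ 9) ∨ 12 ≤ x := by
  constructor
  · intro hx
    induction hx using AddSubmonoid.closure_induction with
    | mem x hx =>
      simp only [Set.mem_insert_iff, Set.mem_singleton_iff] at hx
      omega
    | zero => left; rfl
    | add x y _ _ hx hy => omega
  · have h6 : 6 ∈ G := AddSubmonoid.subset_closure (by simp)
    have h7 : 7 ∈ G := AddSubmonoid.subset_closure (by simp)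
    have h8 : 8 ∈ G := AddSubmonoid.subset_closure (by simp)
    have h9 : 9 ∈ G := AddSubmonoid.subset_closure (by simp)
    intro hx
    have key : ∀ n : ℕ, ∀ x, x ≤ n → (x = 0 ∨ (6 ≤ x ∧ x ≤ 9) ∨ 12 ≤ x) → x ∈ G := by
      intro n
      induction n with
      | zero =>
        intro x hx _
        have : x = 0 := by omega
        rw [this]; exact G.zero_mem
      | succ n ih =>
        intro x hxn hx
        rcases hx with h | h | h
        · rw [h]; exact G.zero_mem
        · have : x = 6 ∨ x = 7 ∨ x = 8 ∨ x = 9 := by omega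
          rcases this with h | h | h | h <;> rw [h] <;> assumption
        · by_cases h18 : 18 ≤ x ∨ (12 ≤ x ∧ x ≤ 15)
          · have h' : x - 6 ∈ G := ih (x - 6) (by omega) (by omega)
            have : x = 6 + (x - 6) := by omega
            rw [this]; exact G.add_mem h6 h'
          · have : x = 16 ∨ x = 17 := by omega
            rcases this with h | h
            · rw [h]; exact G.add_mem h8 h8
            · rw [h]; exact G.add_mem h8 h9
    exact key x x le_rfl hx

lemma mem_int (x : ℤ) : Mem G x ↔ x = 0 ∨ (6 ≤ x ∧ x ≤ 9) ∨ 12 ≤ x := by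
  constructor
  · rintro ⟨n, hn, rfl⟩
    rw [mem_G] at hn
    omega
  · intro h
    refine ⟨x.toNat, ?_, ?_⟩
    · rw [mem_G]; omega
    · omega

lemma isNS : IsNumericalSemigroup G := by
  apply (Set.finite_Iio 12).subset
  intro x hx
  simp only [Set.mem_compl_iff, SetLike.mem_coe, mem_G] at hx
  simp only [Set.mem_Iio]
  omega

lemma minGens_G : minGens G = {6, 7, 8, 9} := by
  ext g
  simp only [minGens, Set.mem_ofPred_eq, Set.mem_insert_iff, Set.mem_singleton_iff]
  constructor
  · rintro ⟨h1, h2, h3⟩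
    rw [mem_G] at h1
    by_contra hg
    have hg12 : 12 ≤ g := by omega
    by_cases hc : 18 ≤ g ∨ (12 ≤ g ∧ g ≤ 15)
    · have := h3 6 (by rw [mem_G]; omega) (g - 6) (by rw [mem_G]; omega) (by omega)
      omega
    · have := h3 8 (by rw [mem_G]; omega) (g - 8) (by rw [mem_G]; omega) (by omega)
      omega
  · intro h
    refine ⟨by rw [mem_G]; omega, by omega, ?_⟩
    intro a ha b hb hab
    rw [mem_G] at ha hb
    omega

lemma edim_G : edim G = 4 := by
  rw [edim, minGens_G]
  rw [show ({6, 7, 8, 9} : Set ℕ) = (({6, 7, 8, 9} : Finset ℕ) : Set ℕ) by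
    ext; simp]
  rw [Set.ncard_coe_finset]
  rfl

lemma isPF_iff (x : ℤ) : IsPF G x ↔ x = 10 ∨ x = 11 := by
  constructor
  · rintro ⟨h1, h2⟩
    rw [mem_int] at h1
    have a6 := h2 6 (by rw [mem_G]; omega) (by omega)
    have a7 := h2 7 (by rw [mem_G]; omega) (by omega)
    have a8 := h2 8 (by rw [mem_G]; omega) (by omega)
    have a9 := h2 9 (by rw [mem_G]; omega) (by omega)
    rw [mem_int] at a6 a7 a8 a9
    push_cast at a6 a7 a8 a9
    omega
  · intro h
    refine ⟨by rw [mem_int]; omega, ?_⟩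
    intro s hs hs0
    rw [mem_G] at hs
    rw [mem_int]
    omega

lemma frob_G : IsFrob G 11 := by
  refine ⟨by rw [mem_int]; omega, ?_⟩
  intro x hx
  rw [mem_int]; omega

lemma nearlyGorenstein_G : NearlyGorenstein G := by
  intro g hg
  rw [minGens_G] at hg
  simp only [Set.mem_insert_iff, Set.mem_singleton_iff] at hg
  by_cases h6 : g = 6
  · refine ⟨11, (isPF_iff _).2 (Or.inr rfl), ?_⟩
    intro q hq
    rw [isPF_iff] at hq
    rw [mem_int]; omega
  · refine ⟨10, (isPF_iff _).2 (Or.inl rfl), ?_⟩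
    intro q hq
    rw [isPF_iff] at hq
    rw [mem_int]; omega

lemma not_almostSymmetric_G : ¬ AlmostSymmetric G := by
  intro h
  have := h 11 frob_G 10 (by rw [mem_int]; omega)
  rcases this with h | ⟨_, h⟩
  · rw [mem_int] at h; omega
  · rw [isPF_iff] at h; omega

/-! ## The defining ideal -/

section Ideal

variable (k : Type u) [Field k]

lemma h6 : 6 ∈ minGens G := by rw [minGens_G]; simp
lemma h7 : 7 ∈ minGens G := by rw [minGens_G]; simp
lemma h8 : 8 ∈ minGens G := by rw [minGens_G]; simp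
lemma h9 : 9 ∈ minGens G := by rw [minGens_G]; simp

/-- the four indices -/
def i6 : minGens G := ⟨6, h6⟩
def i7 : minGens G := ⟨7, h7⟩
def i8 : minGens G := ⟨8, h8⟩
def i9 : minGens G := ⟨9, h9⟩

lemma idx_cases (i : minGens G) : i = i6 ∨ i = i7 ∨ i = i8 ∨ i = i9 := by
  obtain ⟨g, hg⟩ := i
  have hg' := hg
  rw [minGens_G] at hg'
  simp only [Set.mem_insert_iff, Set.mem_singleton_iff] at hg'
  simp only [i6, i7, i8, i9, Subtype.mk.injEq]
  exact hg'

/-- the four relations -/
noncomputable def r1 : MvPolynomial (minGens G) k := X i7 ^ 2 - X i6 * X i8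
noncomputable def r2 : MvPolynomial (minGens G) k := X i7 * X i8 - X i6 * X i9
noncomputable def r3 : MvPolynomial (minGens G) k := X i8 ^ 2 - X i7 * X i9
noncomputable def r4 : MvPolynomial (minGens G) k := X i9 ^ 2 - X i6 ^ 3

/-- the ideal generated by the four relations -/
noncomputable def J : Ideal (MvPolynomial (minGens G) k) :=
  Ideal.span {r1 k, r2 k, r3 k, r4 k}

lemma phi_X (i : minGens G) : phi k G (X i) = (Polynomial.X : Polynomial k) ^ (i : ℕ) := by
  simp [phi]

lemma J_le : J k ≤ toricIdeal k G := by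
  rw [J, Ideal.span_le]
  intro p hp
  simp only [Set.mem_insert_iff, Set.mem_singleton_iff] at hp
  simp only [SetLike.mem_coe, toricIdeal, RingHom.mem_ker]
  rcases hp with rfl | rfl | rfl | rfl
  · simp only [r1, map_sub, map_mul, map_pow, phi_X, i6, i7, i8]; ring
  · simp only [r2, map_sub, map_mul, phi_X, i6, i7, i8, i9]; ring
  · simp only [r3, map_sub, map_mul, map_pow, phi_X, i7, i8, i9]; ring
  · simp only [r4, map_sub, map_pow, phi_X, i6, i9]; ring

/-- the second factor of a normal monomial -/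
noncomputable def bas : Fin 6 → MvPolynomial (minGens G) k :=
  ![1, X i7, X i8, X i9, X i7 * X i9, X i8 * X i9]

/-- the residue weights -/
def wt : Fin 6 → ℕ := ![0, 7, 8, 9, 16, 17]

/-- the normal monomial -/
noncomputable def nm (p : ℕ × Fin 6) : MvPolynomial (minGens G) k := X i6 ^ p.1 * bas k p.2

lemma phi_nm (p : ℕ × Fin 6) :
    phi k G (nm k p) = (Polynomial.X : Polynomial k) ^ (6 * p.1 + wt p.2) := by
  obtain ⟨a, b⟩ := p
  simp only [nm, map_mul, map_pow, phi_X, i6]
  rw [pow_add, ← pow_mul]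
  congr 1
  fin_cases b
  · simp [bas, wt]
  · simp [bas, wt, phi_X, i7]
  · simp [bas, wt, phi_X, i8]
  · simp [bas, wt, phi_X, i9]
  · simp only [bas, wt, Fin.reduceFinMk, Matrix.cons_val, map_mul, phi_X, i7, i9]; ring
  · simp only [bas, wt, Fin.reduceFinMk, Matrix.cons_val, map_mul, phi_X, i8, i9]; ring

/-- the sum of `J` and the space of normal polynomials -/
noncomputable def NJ : Submodule k (MvPolynomial (minGens G) k) :=
  (J k).restrictScalars k ⊔ Submodule.span k (Set.range (nm k))

lemma nm_mem (a : ℕ) (b : Fin 6) : nm k (a, b) ∈ NJ k :=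
  Submodule.mem_sup_right (Submodule.subset_span ⟨(a, b), rfl⟩)

lemma J_mem {p : MvPolynomial (minGens G) k} (hp : p ∈ J k) : p ∈ NJ k :=
  Submodule.mem_sup_left hp

lemma r1_mem : r1 k ∈ J k := Ideal.subset_span (by simp)
lemma r2_mem : r2 k ∈ J k := Ideal.subset_span (by simp)
lemma r3_mem : r3 k ∈ J k := Ideal.subset_span (by simp)
lemma r4_mem : r4 k ∈ J k := Ideal.subset_span (by simp)

/-- if `p ≡ q` modulo `J` with an explicit certificate then `p ∈ NJ` follows from `q ∈ NJ`. -/
lemma mem_of {p q : MvPolynomial (minGens G) k} (hq : q ∈ NJ k)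
    (c1 c2 c3 c4 : MvPolynomial (minGens G) k)
    (h : p = q + (c1 * r1 k + c2 * r2 k + c3 * r3 k + c4 * r4 k)) : p ∈ NJ k := by
  rw [h]
  apply Submodule.add_mem _ hq
  apply J_mem
  exact (J k).add_mem ((J k).add_mem ((J k).add_mem ((J k).mul_mem_left _ (r1_mem k))
    ((J k).mul_mem_left _ (r2_mem k))) ((J k).mul_mem_left _ (r3_mem k)))
    ((J k).mul_mem_left _ (r4_mem k))

lemma nm_mul_X (a : ℕ) (b : Fin 6) (i : minGens G) : nm k (a, b) * X i ∈ NJ k := by
  rcases idx_cases i with rfl | rfl | rfl | rfl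
  · have : nm k (a, b) * X i6 = nm k (a + 1, b) := by simp only [nm]; ring
    rw [this]; exact nm_mem k _ _
  · fin_cases b
    · have : nm k (a, 0) * X i7 = nm k (a, 1) := by simp [nm, bas]
      exact this ▸ nm_mem k _ _
    · refine mem_of k (nm_mem k (a + 1) 2) (X i6 ^ a) 0 0 0 ?_
      simp [nm, bas, r1]; ring
    · refine mem_of k (nm_mem k (a + 1) 3) 0 (X i6 ^ a) 0 0 ?_
      simp [nm, bas, r2]; ring
    · have : nm k (a, 3) * X i7 = nm k (a, 4) := by simp [nm, bas]; ring
      exact this ▸ nm_mem k _ _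
    · refine mem_of k (nm_mem k (a + 1) 5) (X i6 ^ a * X i9) 0 0 0 ?_
      simp [nm, bas, r1]; ring
    · refine mem_of k (nm_mem k (a + 4) 0) 0 (X i6 ^ a * X i9) 0 (X i6 ^ (a + 1)) ?_
      simp [nm, bas, r2, r4]; ring
  · fin_cases b
    · have : nm k (a, 0) * X i8 = nm k (a, 2) := by simp [nm, bas]
      exact this ▸ nm_mem k _ _
    · refine mem_of k (nm_mem k (a + 1) 3) 0 (X i6 ^ a) 0 0 ?_
      simp [nm, bas, r2]; ring
    · refine mem_of k (nm_mem k a 4) 0 0 (X i6 ^ a) 0 ?_
      simp [nm, bas, r3]; ring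
    · have : nm k (a, 3) * X i8 = nm k (a, 5) := by simp [nm, bas]; ring
      exact this ▸ nm_mem k _ _
    · refine mem_of k (nm_mem k (a + 4) 0) 0 (X i6 ^ a * X i9) 0 (X i6 ^ (a + 1)) ?_
      simp [nm, bas, r2, r4]; ring
    · refine mem_of k (nm_mem k (a + 3) 1) 0 0 (X i6 ^ a * X i9) (X i6 ^ a * X i7) ?_
      simp [nm, bas, r3, r4]; ring
  · fin_cases b
    · have : nm k (a, 0) * X i9 = nm k (a, 3) := by simp [nm, bas]
      exact this ▸ nm_mem k _ _
    · have : nm k (a, 1) * X i9 = nm k (a, 4) := by simp [nm, bas]; ring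
      exact this ▸ nm_mem k _ _
    · have : nm k (a, 2) * X i9 = nm k (a, 5) := by simp [nm, bas]; ring
      exact this ▸ nm_mem k _ _
    · refine mem_of k (nm_mem k (a + 3) 0) 0 0 0 (X i6 ^ a) ?_
      simp [nm, bas, r4]; ring
    · refine mem_of k (nm_mem k (a + 3) 1) 0 0 0 (X i6 ^ a * X i7) ?_
      simp [nm, bas, r4]; ring
    · refine mem_of k (nm_mem k (a + 3) 2) 0 0 0 (X i6 ^ a * X i8) ?_
      simp [nm, bas, r4]; ring

lemma NJ_mul_X {p : MvPolynomial (minGens G) k} (hp : p ∈ NJ k) (i : minGens G) :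
    p * X i ∈ NJ k := by
  rw [NJ, Submodule.mem_sup] at hp
  obtain ⟨y, hy, z, hz, rfl⟩ := hp
  rw [add_mul]
  apply Submodule.add_mem
  · exact J_mem k ((J k).mul_mem_right _ hy)
  · induction hz using Submodule.span_induction with
    | mem x hx =>
      obtain ⟨⟨a, b⟩, rfl⟩ := hx
      exact nm_mul_X k a b i
    | zero => simp
    | add x y _ _ hx hy => rw [add_mul]; exact Submodule.add_mem _ hx hy
    | smul c x _ hx => rw [smul_mul_assoc]; exact Submodule.smul_mem _ _ hx

lemma mem_NJ (p : MvPolynomial (minGens G) k) : p ∈ NJ k := by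
  induction p using MvPolynomial.induction_on with
  | C a =>
    have : (C a : MvPolynomial (minGens G) k) = a • nm k (0, 0) := by
      simp [nm, bas, MvPolynomial.smul_eq_C_mul]
    rw [this]; exact Submodule.smul_mem _ _ (nm_mem k _ _)
  | add p q hp hq => exact Submodule.add_mem _ hp hq
  | mul_X p i hp => exact NJ_mul_X k hp i

lemma weight_inj : Function.Injective (fun p : ℕ × Fin 6 => 6 * p.1 + wt p.2) := by
  rintro ⟨a, b⟩ ⟨a', b'⟩ h
  simp only at h
  fin_cases b <;> fin_cases b' <;> simp [wt] at h ⊢ <;> omega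

lemma toric_le : toricIdeal k G ≤ J k := by
  intro p hp
  have hpN := mem_NJ k p
  rw [NJ, Submodule.mem_sup] at hpN
  obtain ⟨y, hy, z, hz, rfl⟩ := hpN
  have hyJ : y ∈ J k := hy
  have hyK : phi k G y = 0 := J_le k hyJ
  have hz0 : phi k G z = 0 := by
    have : phi k G (y + z) = 0 := hp
    rw [map_add, hyK, zero_add] at this
    exact this
  rw [Finsupp.mem_span_range_iff_exists_finsupp] at hz
  obtain ⟨c, hc⟩ := hz
  have hlin : LinearIndependent k
      (fun p : ℕ × Fin 6 => (Polynomial.X : Polynomial k) ^ (6 * p.1 + wt p.2)) := by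
    have hb := (Polynomial.basisMonomials k).linearIndependent
    have := hb.comp _ weight_inj
    have h2 : (⇑(Polynomial.basisMonomials k) ∘ fun p : ℕ × Fin 6 => 6 * p.1 + wt p.2) =
        (fun p : ℕ × Fin 6 => (Polynomial.X : Polynomial k) ^ (6 * p.1 + wt p.2)) := by
      funext p
      simp only [Function.comp, Polynomial.coe_basisMonomials, Polynomial.monomial_one_right_eq_X_pow]
    rw [h2] at this
    exact this
  have : c = 0 := by
    rw [linearIndependent_iff] at hlin
    apply hlin c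
    rw [Finsupp.linearCombination_apply]
    rw [← hz0, ← hc, Finsupp.sum, Finsupp.sum, map_sum]
    apply Finset.sum_congr rfl
    intro p _
    rw [map_smul, phi_nm]
  rw [← hc, this]
  simpa using hyJ

lemma toric_eq : toricIdeal k G = J k := le_antisymm (toric_le k) (J_le k)

/-! ## Lower bound for the number of generators -/

/-- `p` has no terms of degree `≤ 1`. -/
def Ord2 (p : MvPolynomial (minGens G) k) : Prop :=
  ∀ v : minGens G →₀ ℕ, v.degree ≤ 1 → coeff v p = 0

lemma ord2_mul (a : MvPolynomial (minGens G) k) {p : MvPolynomial (minGens G) k}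
    (hp : Ord2 k p) : Ord2 k (a * p) := by
  intro v hv
  rw [coeff_mul]
  apply Finset.sum_eq_zero
  rintro ⟨x, y⟩ hxy
  rw [Finset.HasAntidiagonal.mem_antidiagonal] at hxy
  have : y.degree ≤ 1 := by
    have := congrArg Finsupp.degree hxy
    rw [map_add] at this
    simp only at this
    omega
  simp only
  rw [hp y this, mul_zero]

lemma ord2_add {p q : MvPolynomial (minGens G) k} (hp : Ord2 k p) (hq : Ord2 k q) :
    Ord2 k (p + q) := by
  intro v hv
  rw [coeff_add, hp v hv, hq v hv, add_zero]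

lemma ord2_XX (i j : minGens G) : Ord2 k (X i * X j) := by
  intro v hv
  rw [X, X, monomial_mul, coeff_monomial, if_neg]
  intro h
  have := congrArg Finsupp.degree h
  rw [map_add, Finsupp.degree_single, Finsupp.degree_single] at this
  omega

lemma ord2_neg {p : MvPolynomial (minGens G) k} (hp : Ord2 k p) : Ord2 k (-p) := by
  intro v hv
  rw [coeff_neg, hp v hv, neg_zero]

lemma ord2_J {p : MvPolynomial (minGens G) k} (hp : p ∈ J k) : Ord2 k p := by
  rw [J] at hp
  induction hp using Submodule.span_induction with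
  | mem x hx =>
    simp only [Set.mem_insert_iff, Set.mem_singleton_iff] at hx
    rcases hx with rfl | rfl | rfl | rfl
    · rw [r1, sub_eq_add_neg, sq]
      exact ord2_add k (ord2_XX k _ _) (ord2_neg k (ord2_XX k _ _))
    · rw [r2, sub_eq_add_neg]
      exact ord2_add k (ord2_XX k _ _) (ord2_neg k (ord2_XX k _ _))
    · rw [r3, sub_eq_add_neg, sq]
      exact ord2_add k (ord2_XX k _ _) (ord2_neg k (ord2_XX k _ _))
    · rw [r4, sub_eq_add_neg, sq, pow_succ, sq, mul_assoc]
      exact ord2_add k (ord2_XX k _ _) (ord2_neg k (ord2_mul k _ (ord2_XX k _ _)))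
  | zero => intro v _; simp
  | add x y _ _ hx hy => exact ord2_add k hx hy
  | smul a x _ hx => exact ord2_mul k a hx

lemma coeff_mul_two (a : MvPolynomial (minGens G) k) {p : MvPolynomial (minGens G) k}
    (hp : Ord2 k p) (d : minGens G →₀ ℕ) (hd : d.degree = 2) :
    coeff d (a * p) = coeff 0 a * coeff d p := by
  rw [coeff_mul]
  rw [Finset.sum_eq_single ((0, d) : (minGens G →₀ ℕ) × (minGens G →₀ ℕ))]
  · rintro ⟨x, y⟩ hxy hne
    rw [Finset.HasAntidiagonal.mem_antidiagonal] at hxy
    simp only at hxy ⊢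
    have hdeg := congrArg Finsupp.degree hxy
    rw [map_add] at hdeg
    by_cases hy : y.degree ≤ 1
    · rw [hp y hy, mul_zero]
    · exfalso
      have hx0 : x.degree = 0 := by omega
      have hx : x = 0 := by
        rwa [Finsupp.degree_eq_zero_iff] at hx0
      apply hne
      rw [hx, zero_add] at hxy
      rw [hx, hxy]
  · intro h
    exact absurd (Finset.HasAntidiagonal.mem_antidiagonal.2 (zero_add d)) h

/-- four monomials of degree two -/
noncomputable def mm : Fin 4 → (minGens G →₀ ℕ) :=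
  ![Finsupp.single i7 1 + Finsupp.single i7 1, Finsupp.single i7 1 + Finsupp.single i8 1,
    Finsupp.single i8 1 + Finsupp.single i8 1, Finsupp.single i9 1 + Finsupp.single i9 1]

lemma mm_deg (j : Fin 4) : (mm j).degree = 2 := by
  fin_cases j <;> simp [mm, Finsupp.degree_single]

/-- read off the coefficients at the four monomials -/
noncomputable def T : MvPolynomial (minGens G) k →ₗ[k] (Fin 4 → k) :=
  LinearMap.pi (fun j => MvPolynomial.lcoeff k (mm j))

lemma T_apply (p : MvPolynomial (minGens G) k) (j : Fin 4) : T k p j = coeff (mm j) p := rfl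

lemma T_mul (a : MvPolynomial (minGens G) k) {p : MvPolynomial (minGens G) k}
    (hp : Ord2 k p) : T k (a * p) = coeff 0 a • T k p := by
  funext j
  rw [Pi.smul_apply, T_apply, T_apply, coeff_mul_two k a hp _ (mm_deg j), smul_eq_mul]

lemma n67 : i6 ≠ i7 := by simp [i6, i7]
lemma n68 : i6 ≠ i8 := by simp [i6, i8]
lemma n69 : i6 ≠ i9 := by simp [i6, i9]
lemma n78 : i7 ≠ i8 := by simp [i7, i8]
lemma n79 : i7 ≠ i9 := by simp [i7, i9]
lemma n89 : i8 ≠ i9 := by simp [i8, i9]

lemma coeff_XX (i j : minGens G) (v : minGens G →₀ ℕ) :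
    coeff v (X i * X j : MvPolynomial (minGens G) k) =
      if Finsupp.single i 1 + Finsupp.single j 1 = v then 1 else 0 := by
  rw [X, X, monomial_mul, coeff_monomial, one_mul]

lemma sep {i j a b : minGens G} (c : minGens G)
    (h : (Finsupp.single i 1 + Finsupp.single j 1 : minGens G →₀ ℕ) c ≠
      (Finsupp.single a 1 + Finsupp.single b 1 : minGens G →₀ ℕ) c) :
    ¬ (Finsupp.single i 1 + Finsupp.single j 1 : minGens G →₀ ℕ) =
      Finsupp.single a 1 + Finsupp.single b 1 := fun h' => h (by rw [h'])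

lemma T_r (j : Fin 4) : T k (![r1 k, r2 k, r3 k, r4 k] j) = Pi.single j 1 := by
  have e67 := n67; have e68 := n68; have e69 := n69
  have e78 := n78; have e79 := n79; have e89 := n89
  have f67 := n67.symm; have f68 := n68.symm; have f69 := n69.symm
  have f78 := n78.symm; have f79 := n79.symm; have f89 := n89.symm
  have hcube : ∀ v : minGens G →₀ ℕ, v.degree = 2 →
      coeff v (X i6 ^ 3 : MvPolynomial (minGens G) k) = 0 := by
    intro v hv
    rw [X_pow_eq_monomial, coeff_monomial, if_neg]
    intro h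
    have := congrArg Finsupp.degree h
    rw [Finsupp.degree_single] at this
    omega
  have key : ∀ i j a b : minGens G, ∀ c : minGens G,
      (Finsupp.single i 1 + Finsupp.single j 1 : minGens G →₀ ℕ) c ≠
      (Finsupp.single a 1 + Finsupp.single b 1 : minGens G →₀ ℕ) c →
      coeff (Finsupp.single a 1 + Finsupp.single b 1)
        (X i * X j : MvPolynomial (minGens G) k) = 0 := by
    intro i j a b c h
    rw [coeff_XX, if_neg (sep c h)]
  have keyeq : ∀ i j : minGens G, coeff (Finsupp.single i 1 + Finsupp.single j 1)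
        (X i * X j : MvPolynomial (minGens G) k) = 1 := by
    intro i j
    rw [coeff_XX, if_pos rfl]
  funext l
  rw [T_apply]
  fin_cases j
  · show coeff (mm l) (r1 k) = _
    rw [r1, coeff_sub, sq]
    fin_cases l
    · change coeff (Finsupp.single i7 1 + Finsupp.single i7 1) _ - coeff (Finsupp.single i7 1 + Finsupp.single i7 1) _ = _
      rw [keyeq, key i6 i8 i7 i7 i6 (by simp [*])]; simp
    · change coeff (Finsupp.single i7 1 + Finsupp.single i8 1) _ - coeff (Finsupp.single i7 1 + Finsupp.single i8 1) _ = _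
      rw [key i7 i7 i7 i8 i8 (by simp [*]), key i6 i8 i7 i8 i6 (by simp [*])]; simp
    · change coeff (Finsupp.single i8 1 + Finsupp.single i8 1) _ - coeff (Finsupp.single i8 1 + Finsupp.single i8 1) _ = _
      rw [key i7 i7 i8 i8 i8 (by simp [*]), key i6 i8 i8 i8 i6 (by simp [*])]; simp
    · change coeff (Finsupp.single i9 1 + Finsupp.single i9 1) _ - coeff (Finsupp.single i9 1 + Finsupp.single i9 1) _ = _
      rw [key i7 i7 i9 i9 i9 (by simp [*]), key i6 i8 i9 i9 i9 (by simp [*])]; simp
  · show coeff (mm l) (r2 k) = _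
    rw [r2, coeff_sub]
    fin_cases l
    · change coeff (Finsupp.single i7 1 + Finsupp.single i7 1) _ - coeff (Finsupp.single i7 1 + Finsupp.single i7 1) _ = _
      rw [key i7 i8 i7 i7 i8 (by simp [*]), key i6 i9 i7 i7 i6 (by simp [*])]; simp
    · change coeff (Finsupp.single i7 1 + Finsupp.single i8 1) _ - coeff (Finsupp.single i7 1 + Finsupp.single i8 1) _ = _
      rw [keyeq, key i6 i9 i7 i8 i6 (by simp [*])]; simp
    · change coeff (Finsupp.single i8 1 + Finsupp.single i8 1) _ - coeff (Finsupp.single i8 1 + Finsupp.single i8 1) _ = _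
      rw [key i7 i8 i8 i8 i7 (by simp [*]), key i6 i9 i8 i8 i6 (by simp [*])]; simp
    · change coeff (Finsupp.single i9 1 + Finsupp.single i9 1) _ - coeff (Finsupp.single i9 1 + Finsupp.single i9 1) _ = _
      rw [key i7 i8 i9 i9 i9 (by simp [*]), key i6 i9 i9 i9 i6 (by simp [*])]; simp
  · show coeff (mm l) (r3 k) = _
    rw [r3, coeff_sub, sq]
    fin_cases l
    · change coeff (Finsupp.single i7 1 + Finsupp.single i7 1) _ - coeff (Finsupp.single i7 1 + Finsupp.single i7 1) _ = _
      rw [key i8 i8 i7 i7 i8 (by simp [*]), key i7 i9 i7 i7 i9 (by simp [*])]; simp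
    · change coeff (Finsupp.single i7 1 + Finsupp.single i8 1) _ - coeff (Finsupp.single i7 1 + Finsupp.single i8 1) _ = _
      rw [key i8 i8 i7 i8 i7 (by simp [*]), key i7 i9 i7 i8 i9 (by simp [*])]; simp
    · change coeff (Finsupp.single i8 1 + Finsupp.single i8 1) _ - coeff (Finsupp.single i8 1 + Finsupp.single i8 1) _ = _
      rw [keyeq, key i7 i9 i8 i8 i9 (by simp [*])]; simp
    · change coeff (Finsupp.single i9 1 + Finsupp.single i9 1) _ - coeff (Finsupp.single i9 1 + Finsupp.single i9 1) _ = _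
      rw [key i8 i8 i9 i9 i8 (by simp [*]), key i7 i9 i9 i9 i7 (by simp [*])]; simp
  · show coeff (mm l) (r4 k) = _
    rw [r4, coeff_sub, sq, hcube _ (mm_deg l)]
    fin_cases l
    · change coeff (Finsupp.single i7 1 + Finsupp.single i7 1) _ - 0 = _
      rw [key i9 i9 i7 i7 i9 (by simp [*])]; simp
    · change coeff (Finsupp.single i7 1 + Finsupp.single i8 1) _ - 0 = _
      rw [key i9 i9 i7 i8 i9 (by simp [*])]; simp
    · change coeff (Finsupp.single i8 1 + Finsupp.single i8 1) _ - 0 = _
      rw [key i9 i9 i8 i8 i9 (by simp [*])]; simp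
    · change coeff (Finsupp.single i9 1 + Finsupp.single i9 1) _ - 0 = _
      rw [keyeq]; simp

lemma four_le (s : Finset (MvPolynomial (minGens G) k))
    (hs : Ideal.span (s : Set (MvPolynomial (minGens G) k)) = toricIdeal k G) :
    4 ≤ s.card := by
  classical
  rw [toric_eq] at hs
  have h1 : ∀ p ∈ J k, T k p ∈ Submodule.span k (T k '' (s : Set _)) := by
    intro p hp
    rw [← hs] at hp
    induction hp using Submodule.span_induction with
    | mem x hx => exact Submodule.subset_span ⟨x, hx, rfl⟩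
    | zero => rw [map_zero]; exact Submodule.zero_mem _
    | add x y _ _ hx hy => rw [map_add]; exact Submodule.add_mem _ hx hy
    | smul a x hx0 hx =>
      have hxJ : x ∈ J k := by rw [← hs]; exact hx0
      rw [smul_eq_mul, T_mul k a (ord2_J k hxJ)]
      exact Submodule.smul_mem _ _ hx
  have h2 : ∀ j : Fin 4, (Pi.single j 1 : Fin 4 → k) ∈ Submodule.span k (T k '' (s : Set _)) := by
    intro j
    rw [← T_r k j]
    apply h1
    fin_cases j
    · exact r1_mem k
    · exact r2_mem k
    · exact r3_mem k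
    · exact r4_mem k
  have h3 : Submodule.span k (T k '' (s : Set _)) = ⊤ := by
    rw [eq_top_iff, ← (Pi.basisFun k (Fin 4)).span_eq, Submodule.span_le]
    rintro _ ⟨j, rfl⟩
    rw [Pi.basisFun_apply]
    exact h2 j
  have h4 := finrank_span_finset_le_card (R := k) (s.image (T k))
  rw [Finset.coe_image, Set.finrank, h3, finrank_top, Module.finrank_fin_fun] at h4
  exact h4.trans Finset.card_image_le

lemma rho_G : rho k G = 4 := by
  classical
  have hmem : ({r1 k, r2 k, r3 k, r4 k} : Finset (MvPolynomial (minGens G) k)).card ∈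
      {n | ∃ s : Finset (MvPolynomial (minGens G) k),
        s.card = n ∧ Ideal.span (s : Set (MvPolynomial (minGens G) k)) = toricIdeal k G} := by
    refine ⟨_, rfl, ?_⟩
    rw [toric_eq, J]
    congr 1
    simp
  apply le_antisymm
  · exact (Nat.sInf_le hmem).trans Finset.card_le_four
  · apply le_csInf ⟨_, hmem⟩
    rintro n ⟨s, rfl, hs⟩
    exact four_le k s hs

end Ideal

/-- **Disproof of MP_8e9e7d_al, Q1.**  There is a numerical semigroup (namely `⟨6,7,8,9⟩`) of
embedding dimension four which is nearly Gorenstein and not almost symmetric, and whose defining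
ideal is minimally generated by exactly `4` elements over every field. -/
theorem result : ∃ Γ : AddSubmonoid ℕ, IsNumericalSemigroup Γ ∧ edim Γ = 4 ∧
    NearlyGorenstein Γ ∧ ¬ AlmostSymmetric Γ ∧
    ∀ (k : Type u) [Field k], rho k Γ = 4 ∧ rho k Γ ∉ ({5, 6} : Set ℕ) := by
  refine ⟨G, isNS, edim_G, nearlyGorenstein_G, not_almostSymmetric_G, ?_⟩
  intro k _
  refine ⟨rho_G k, ?_⟩
  rw [rho_G]
  simp

end Pool.Agent.Results.MP_8e9e7d_al.SixSevenEightNine
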